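import Pool.Agent.W314.BA.Stm

/-! MP_f2742c_an, project BA: elementary properties of the twisted averages. -/

open MeasureTheory Set Filter Topology Real
open scoped ENNReal NNReal

namespace Pool.Agent.W347.BA

open Pool.Agent.W314.BA

noncomputable section

lemma norm_ee (t : ℝ) : ‖ee t‖ = 1 := by
  unfold ee
  have : 2 * (π : ℂ) * Complex.I * t = ((2 * π * t : ℝ) : ℂ) * Complex.I := by
    push_cast; ring
  rw [this, Complex.norm_exp_ofReal_mul_I]

lemma continuous_ee : Continuous ee := by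
  unfold ee
  fun_prop

lemma meas_phi {Y : Type} [MeasurableSpace Y] [MulAction G Y] {μ : Measure Y}
    {c : G → Y → ℤ} (hS : Sys μ c) (θ : ℝ) {f : Y → ℂ} (hf : Measurable f) :
    Measurable (fun p : G × Y => ee (θ * c p.1 p.2) * f (p.1 • p.2)) := by
  have h1 : Measurable (fun p : G × Y => (θ * (c p.1 p.2 : ℝ))) := by
    have : Measurable (fun n : ℤ => θ * (n : ℝ)) := measurable_from_top
    exact this.comp hS.c_meas
  exact (continuous_ee.measurable.comp h1).mul (hf.comp hS.smul_meas)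

lemma meas_phi' {Y : Type} [MeasurableSpace Y] [MulAction G Y] {μ : Measure Y}
    {c : G → Y → ℤ} (hS : Sys μ c) (θ : ℝ) {f : Y → ℂ} (hf : Measurable f) (y : Y) :
    Measurable (fun g : G => ee (θ * c g y) * f (g • y)) := by
  have h : Measurable (fun g : G => ((g, y) : G × Y)) := measurable_prodMk_right
  have h2 := (meas_phi hS θ hf).comp h
  exact h2

lemma tw_meas {Y : Type} [MeasurableSpace Y] [MulAction G Y] {μ : Measure Y}
    {c : G → Y → ℤ} (hS : Sys μ c) (θ : ℝ) {f : Y → ℂ} (hf : Measurable f) (ν : Measure G)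
    [SFinite ν] : Measurable (tw c θ ν f) := by
  have h := (meas_phi hS θ hf).stronglyMeasurable
  exact (StronglyMeasurable.integral_prod_left (μ := ν)
    (f := fun (g : G) (y : Y) => ee (θ * c g y) * f (g • y)) h).measurable

lemma tw_bound {Y : Type} [MeasurableSpace Y] [MulAction G Y]
    {c : G → Y → ℤ} (θ : ℝ) {f : Y → ℂ} {C : ℝ} (hC : ∀ y, ‖f y‖ ≤ C)
    (ν : Measure G) [IsProbabilityMeasure ν] (y : Y) : ‖tw c θ ν f y‖ ≤ C := by
  have h := norm_integral_le_of_norm_le_const (μ := ν)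
    (f := fun g => ee (θ * c g y) * f (g • y)) (C := C)
    (Eventually.of_forall fun g => by rw [norm_mul, norm_ee, one_mul]; exact hC _)
  simpa [tw] using h

lemma Fs_int : Integrable (fun g => Fs 2 (hh g)) hm := by
  have hmeas : Measurable (Fs 2) := by unfold Fs; fun_prop
  have h1 : Integrable (Fs 2) (hm.map hh) := by
    rw [map_hh]
    show IntegrableOn (Fs 2) (Ici 1) volume
    rw [integrableOn_Ici_iff_integrableOn_Ioi]
    have h2 := integrableOn_Ioi_rpow_of_lt (a := -2) (by norm_num) (c := 1) (by norm_num)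
    refine h2.mono' hmeas.aestronglyMeasurable ?_
    refine (ae_restrict_iff' measurableSet_Ioi).2 (Eventually.of_forall fun t ht => ?_)
    have ht : 1 < t := ht
    unfold Fs
    rw [Real.norm_eq_abs, abs_of_nonneg (by positivity), Real.rpow_neg (by linarith)]
    have : t ^ (2 : ℝ) = t ^ (2 : ℕ) := Real.rpow_natCast t 2
    rw [this]
    exact inv_anti₀ (by positivity) (by nlinarith)
  exact (integrable_map_measure hmeas.aestronglyMeasurable hh_measurable.aemeasurable).1 h1

lemma KF_meas {F : ℝ → ℝ} (hF : KF F) : Measurable (fun g : G => F (hh g)) := by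
  have h1 : Continuous (fun t : ℝ => F (max t 1)) := by
    refine hF.1.comp_continuous (f := fun t : ℝ => max t 1)
      (continuous_id.max continuous_const) fun t => ?_
    exact le_max_right t (1 : ℝ)
  have h2 : (fun g : G => F (hh g)) = fun g : G => F (max (hh g) 1) := by
    funext g
    rw [max_eq_left (one_le_hh g)]
  rw [h2]
  exact h1.measurable.comp hh_measurable

lemma op_BM {Y : Type} [MeasurableSpace Y] [MulAction G Y] {μ : Measure Y}
    {c : G → Y → ℤ} (hS : Sys μ c) (θ : ℝ) {f : Y → ℂ} (hf : BM f) {F : ℝ → ℝ} (hF : KF F) :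
    BM (op c θ F f) := by
  constructor
  · have h1 : Measurable (fun p : G × Y => (F (hh p.1) : ℂ) *
        (ee (θ * c p.1 p.2) * f (p.1 • p.2))) :=
      (Complex.measurable_ofReal.comp ((KF_meas hF).comp measurable_fst)).mul (meas_phi hS θ hf.1)
    exact (StronglyMeasurable.integral_prod_left (μ := hm)
      (f := fun (g : G) (y : Y) => (F (hh g) : ℂ) * (ee (θ * c g y) * f (g • y)))
      h1.stronglyMeasurable).measurable
  · obtain ⟨C, hC⟩ := hf.2
    obtain ⟨D, hD⟩ := hF.2
    refine ⟨∫ g, (D * Fs 2 (hh g)) * C ∂hm, fun y => ?_⟩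
    refine norm_integral_le_of_norm_le ((Fs_int.const_mul D).mul_const C)
      (Eventually.of_forall fun g => ?_)
    rw [norm_mul, norm_mul, norm_ee, one_mul, Complex.norm_real, Real.norm_eq_abs]
    have h1 := hD (hh g) (one_le_hh g)
    exact mul_le_mul h1 (hC _) (norm_nonneg _) ((abs_nonneg _).trans h1)

lemma smul_tw {Y : Type} [MeasurableSpace Y] [MulAction G Y]
    {c : G → Y → ℤ} (θ : ℝ) {f : Y → ℂ} {x : ℝ} (hx : 1 < x) (y : Y) :
    (x - 1) • tw c θ (bm x) f y = ∫ g in Bx x, ee (θ * c g y) * f (g • y) ∂hm := by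
  unfold tw bm
  rw [integral_smul_measure, ENNReal.toReal_ofReal (by rw [inv_nonneg]; linarith), smul_smul,
    mul_inv_cancel₀ (by linarith), one_smul]

lemma tw_diff {Y : Type} [MeasurableSpace Y] [MulAction G Y] {μ : Measure Y}
    {c : G → Y → ℤ} (hS : Sys μ c) (θ : ℝ) {f : Y → ℂ} (hf : Measurable f) {C : ℝ}
    (hC : ∀ y, ‖f y‖ ≤ C) {x x' : ℝ} (hx : 1 < x') (hxx : x' ≤ x) (y : Y) :
    ‖(x - 1) • tw c θ (bm x) f y - (x' - 1) • tw c θ (bm x') f y‖ ≤ C * (x - x') := by
  rw [smul_tw θ (by linarith), smul_tw θ hx]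
  have hb : ∀ g : G, ‖ee (θ * c g y) * f (g • y)‖ ≤ C := fun g => by
    rw [norm_mul, norm_ee, one_mul]; exact hC _
  have hfin : hm (Bx x) < ⊤ := by
    rw [hm_Bx (by linarith)]; exact ENNReal.ofReal_lt_top
  have hint : IntegrableOn (fun g => ee (θ * c g y) * f (g • y)) (Bx x) hm := by
    refine Measure.integrableOn_of_bounded (M := C) hfin.ne
      (meas_phi' hS θ hf y).aestronglyMeasurable (Eventually.of_forall hb)
  have h1 : ∫ g in Bx x, ee (θ * c g y) * f (g • y) ∂hm
      - ∫ g in Bx x', ee (θ * c g y) * f (g • y) ∂hm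
      = ∫ g in Bx x \ Bx x', ee (θ * c g y) * f (g • y) ∂hm := by
    rw [setIntegral_sdiff (Bx_meas x') hint (Bx_mono hxx)]
  rw [h1]
  have h2 : hm (Bx x \ Bx x') = ENNReal.ofReal (x - x') := by
    rw [measure_sdiff (Bx_mono hxx) (Bx_meas x').nullMeasurableSet
      (by rw [hm_Bx hx.le]; exact ENNReal.ofReal_ne_top), hm_Bx (by linarith), hm_Bx hx.le,
      ← ENNReal.ofReal_sub _ (by linarith)]
    congr 1; ring
  have h3 := norm_setIntegral_le_of_norm_le_const (μ := hm) (s := Bx x \ Bx x')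
    (f := fun g => ee (θ * c g y) * f (g • y)) (C := C) (by rw [h2]; exact ENNReal.ofReal_lt_top)
    (fun g _ => hb g)
  refine h3.trans (le_of_eq ?_)
  rw [Measure.real, h2, ENNReal.toReal_ofReal (by linarith)]

theorem main : Basic1Stmt := by
  intro Y _ _ μ c hS θ f hf
  refine ⟨fun x hx => ?_, fun F hF => op_BM hS θ hf hF, fun C x hx hC y => ?_,
    fun C x x' hx hx' hC y => ?_⟩
  · have := bm_prob hx
    obtain ⟨C, hC⟩ := hf.2
    exact ⟨tw_meas hS θ hf.1 _, C, fun y => tw_bound θ hC _ y⟩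
  · have := bm_prob hx
    exact tw_bound θ hC _ y
  · rcases le_total x' x with h | h
    · rw [abs_of_nonneg (by linarith)]
      exact tw_diff hS θ hf.1 hC hx' h y
    · rw [abs_of_nonpos (by linarith), norm_sub_rev, neg_sub]
      exact tw_diff hS θ hf.1 hC hx h y

end

end Pool.Agent.W347.BA
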